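import Pool.Agent.Helper70.PT.FId

/-! # Packet PT-FI (MP_705522_gt): Fisher information bound for the dependence on `θ` -/

namespace Pool.Agent.Helper70.PT

open MeasureTheory Set Filter Topology
open Pool.Agent.Helper53.PT
open Pool.Agent.Helper93.PT (gd gd_pos gd_meas gd_int nu_rep)

/-- moments against `gg` -/
theorem gg_mom {s : ℝ} (h0 : 0 < s) (h1 : s < 1 / 2) (j : ℕ) :
    IntegrableOn (fun y => gg s y * y ^ j) (Ioi 0) := by
  have hs1 : s < 1 := by linarith
  have hq2 : 2 < 1 / s := by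
    rw [lt_div_iff₀ h0]
    linarith
  refine (gd_int (c := 1 / s * Real.exp ((1 / s - 1) * ls s) / Real.Gamma (1 - s))
    hq2 (Real.exp_pos (ls s / s)) j).congr_fun (fun y hy => ?_) measurableSet_Ioi
  show gd _ _ _ y * y ^ j = gg s y * y ^ j
  rw [gg_eq h0 hs1 hy]

theorem inner_bound {s : ℝ} (h0 : 1 / 4 ≤ s) (h1 : s < 1 / 2) {j : ℕ} {M : ℝ} (hM : 0 < M)
    (hm : mo s j ≤ M) :
    IntegrableOn (fun y => y ^ j * |Tw s (WW s y)| * gg s y) (Ioi 0) ∧
    ∫ y in Ioi (0 : ℝ), y ^ j * |Tw s (WW s y)| * gg s y ≤ 16 * √M := by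
  have hs0 : 0 < s := by linarith
  have hr : 0 < √M := Real.sqrt_pos.2 hM
  have hr2 : √M * √M = M := Real.mul_self_sqrt hM.le
  obtain ⟨i1, v1⟩ := score_sq h0 h1
  have i2 := gg_mom hs0 h1 (2 * j)
  have v2 : ∫ y in Ioi (0 : ℝ), gg s y * y ^ (2 * j) ≤ M := by
    rw [← nu_gg hs0 h1 (fun y => y ^ (2 * j)), (aLAW hs0 h1).2.2.2.1 j]
    exact hm
  have hdom := (i2.const_mul (8 / √M)).add (i1.const_mul (√M / 32))
  have hb : ∀ y ∈ Ioi (0 : ℝ), y ^ j * |Tw s (WW s y)| * gg s y ≤
      8 / √M * (gg s y * y ^ (2 * j)) + √M / 32 * (Tw s (WW s y) ^ 2 * gg s y) := by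
    intro y hy
    have hg := gg_pos s y
    have e : 8 / √M * (gg s y * y ^ (2 * j)) + √M / 32 * (Tw s (WW s y) ^ 2 * gg s y) -
        y ^ j * |Tw s (WW s y)| * gg s y =
        gg s y / √M * (8 * (y ^ j - √M / 16 * |Tw s (WW s y)|) ^ 2) := by
      rw [pow_mul' y 2 j, ← sq_abs (Tw s (WW s y))]
      field_simp
      ring
    have : 0 ≤ gg s y / √M * (8 * (y ^ j - √M / 16 * |Tw s (WW s y)|) ^ 2) := by positivity
    linarith
  have hmeas : AEStronglyMeasurable (fun y => y ^ j * |Tw s (WW s y)| * gg s y)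
      (volume.restrict (Ioi 0)) := by
    refine ContinuousOn.aestronglyMeasurable ?_ measurableSet_Ioi
    obtain ⟨c1, c2⟩ := cont_score (θ := s) (θ' := s) hs0 (by linarith)
    have hi : ContinuousOn (fun y : ℝ => (y, s)) (Ioi 0) := by fun_prop
    have hmap : MapsTo (fun y : ℝ => (y, s)) (Ioi 0) (Ioi 0 ×ˢ Icc s s) :=
      fun y hy => ⟨hy, le_rfl, le_rfl⟩
    have d1 : ContinuousOn (fun y => Tw s (WW s y)) (Ioi 0) := c1.comp hi hmap
    have d2 : ContinuousOn (fun y => gg s y) (Ioi 0) := c2.comp hi hmap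
    exact (((continuous_pow j).continuousOn).mul d1.abs).mul d2
  have hint : IntegrableOn (fun y => y ^ j * |Tw s (WW s y)| * gg s y) (Ioi 0) := by
    refine Integrable.mono' hdom hmeas ?_
    filter_upwards [ae_restrict_mem measurableSet_Ioi] with y hy
    have hy0 : 0 < y := hy
    have hg := gg_pos s y
    rw [Real.norm_eq_abs, abs_of_nonneg (by positivity)]
    exact hb y hy
  refine ⟨hint, (setIntegral_mono_on hint hdom measurableSet_Ioi hb).trans ?_⟩
  have e : ∫ y in Ioi (0 : ℝ), (8 / √M * (gg s y * y ^ (2 * j)) +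
      √M / 32 * (Tw s (WW s y) ^ 2 * gg s y)) =
      8 / √M * (∫ y in Ioi (0 : ℝ), gg s y * y ^ (2 * j)) +
      √M / 32 * (∫ y in Ioi (0 : ℝ), Tw s (WW s y) ^ 2 * gg s y) := by
    rw [integral_add (i2.const_mul (8 / √M)) (i1.const_mul (√M / 32)), integral_const_mul,
      integral_const_mul]
  refine le_trans (le_of_eq e) ?_
  have k1 : 8 / √M * (∫ y in Ioi (0 : ℝ), gg s y * y ^ (2 * j)) ≤ 8 / √M * M :=
    mul_le_mul_of_nonneg_left v2 (by positivity)
  have k2 : √M / 32 * (∫ y in Ioi (0 : ℝ), Tw s (WW s y) ^ 2 * gg s y) ≤ √M / 32 * 256 :=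
    mul_le_mul_of_nonneg_left v1 (by positivity)
  have k3 : 8 / √M * M = 8 * √M := by
    nth_rewrite 2 [← hr2]
    field_simp
  linarith

/-- the general bound -/
theorem main {θ θ' : ℝ} (h0 : 1 / 4 ≤ θ) (hθ : θ ≤ θ') (h1 : θ' < 1 / 2) {h : ℝ → ℝ}
    (hm : Measurable h) {C : ℝ} (hC : 0 ≤ C) {j : ℕ} (hb : ∀ y, 0 < y → |h y| ≤ C * y ^ j) :
    |∫ y, h y ∂(nu θ') - ∫ y, h y ∂(nu θ)| ≤ C * (16 * √(mo θ' j)) * (θ' - θ) := by
  have hθ0 : 0 < θ := by linarith
  have hθ0' : 0 < θ' := by linarith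
  have hθ1 : θ < 1 / 2 := by linarith
  have hM : 0 < mo θ' j := mo_pos hθ0' (by linarith) j
  obtain ⟨c1, c2⟩ := cont_score (θ := θ) (θ' := θ') hθ0 (by linarith)
  rw [nu_gg hθ0' h1, nu_gg hθ0 hθ1]
  have hint : ∀ s, 0 < s → s < 1 / 2 → IntegrableOn (fun y => gg s y * h y) (Ioi 0) := by
    intro s hs hs'
    have i1 := (gg_mom hs hs' j).const_mul C
    refine Integrable.mono' i1 ?_ ?_
    · refine AEStronglyMeasurable.mul ?_ hm.aestronglyMeasurable
      have := gg_mom hs hs' 0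
      simp only [pow_zero, mul_one] at this
      exact this.aestronglyMeasurable
    · filter_upwards [ae_restrict_mem measurableSet_Ioi] with y hy
      have hg := gg_pos s y
      rw [Real.norm_eq_abs, abs_mul, abs_of_pos hg]
      calc gg s y * |h y| ≤ gg s y * (C * y ^ j) := mul_le_mul_of_nonneg_left (hb y hy) hg.le
        _ = _ := by ring
  rw [← integral_sub (hint θ' hθ0' h1) (hint θ hθ0 hθ1)]
  -- the pointwise estimate
  set Φ : ℝ → ℝ → ℝ := fun y s => C * (y ^ j * |Tw s (WW s y)| * gg s y) with hΦ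
  have hΦ0 : ∀ y, 0 < y → ∀ s, 0 ≤ Φ y s := by
    intro y hy s
    have hg := gg_pos s y
    simp only [hΦ]
    positivity
  have hslice : ∀ y, 0 < y → ContinuousOn (fun s => Tw s (WW s y)) (Icc θ θ') ∧
      ContinuousOn (fun s => gg s y) (Icc θ θ') := by
    intro y hy
    have hi : ContinuousOn (fun s : ℝ => (y, s)) (Icc θ θ') := by fun_prop
    have hmap : MapsTo (fun s : ℝ => (y, s)) (Icc θ θ') (Ioi 0 ×ˢ Icc θ θ') :=
      fun s hs => ⟨hy, hs⟩
    exact ⟨c1.comp hi hmap, c2.comp hi hmap⟩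
  have hpt : ∀ y ∈ Ioi (0 : ℝ), ENNReal.ofReal ‖gg θ' y * h y - gg θ y * h y‖ ≤
      ∫⁻ s in Ioc θ θ', ENNReal.ofReal (Φ y s) := by
    intro y hy
    have hy0 : 0 < y := hy
    obtain ⟨d1, d2⟩ := hslice y hy0
    have dF : ContinuousOn (fun s => Tw s (WW s y) * gg s y) (Icc θ θ') := d1.mul d2
    have hii : IntervalIntegrable (fun s => Tw s (WW s y) * gg s y) volume θ θ' :=
      dF.intervalIntegrable_of_Icc hθ
    have hftc : ∫ s in θ..θ', Tw s (WW s y) * gg s y = gg θ' y - gg θ y := by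
      refine intervalIntegral.integral_eq_sub_of_hasDerivAt (f := fun s => gg s y)
        (fun s hs => ?_) hii
      rw [uIcc_of_le hθ] at hs
      exact hasDerivAt_gg (hθ0.trans_le hs.1) (by linarith [hs.2]) y
    have hΦi : IntegrableOn (Φ y) (Ioc θ θ') := by
      have : ContinuousOn (Φ y) (Icc θ θ') :=
        continuousOn_const.mul ((continuousOn_const.mul d1.abs).mul d2)
      exact (this.integrableOn_Icc).mono_set Ioc_subset_Icc_self
    rw [← ofReal_integral_eq_lintegral_ofReal hΦi (ae_of_all _ fun s => hΦ0 y hy0 s)]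
    refine ENNReal.ofReal_le_ofReal ?_
    have e1 : gg θ' y * h y - gg θ y * h y = (gg θ' y - gg θ y) * h y := by ring
    rw [e1, Real.norm_eq_abs, abs_mul]
    have e2 : |gg θ' y - gg θ y| ≤ ∫ s in Ioc θ θ', |Tw s (WW s y)| * gg s y := by
      rw [← hftc, intervalIntegral.integral_of_le hθ, ← Real.norm_eq_abs]
      refine (norm_integral_le_integral_norm _).trans (le_of_eq ?_)
      refine integral_congr_ae (ae_of_all _ fun s => ?_)
      show ‖Tw s (WW s y) * gg s y‖ = |Tw s (WW s y)| * gg s y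
      rw [Real.norm_eq_abs, abs_mul, abs_of_pos (gg_pos s y)]
    have e3 : ∫ s in Ioc θ θ', Φ y s = (C * y ^ j) * ∫ s in Ioc θ θ', |Tw s (WW s y)| * gg s y := by
      rw [← integral_const_mul]
      refine integral_congr_ae (ae_of_all _ fun s => ?_)
      simp only [hΦ]
      ring
    rw [e3]
    have e4 : 0 ≤ ∫ s in Ioc θ θ', |Tw s (WW s y)| * gg s y := (abs_nonneg _).trans e2
    calc |gg θ' y - gg θ y| * |h y| ≤ (∫ s in Ioc θ θ', |Tw s (WW s y)| * gg s y) * (C * y ^ j) :=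
          mul_le_mul e2 (hb y hy0) (abs_nonneg _) e4
      _ = _ := by ring
  have hjoint : AEMeasurable (Function.uncurry fun y s => ENNReal.ofReal (Φ y s))
      ((volume.restrict (Ioi (0 : ℝ))).prod (volume.restrict (Ioc θ θ'))) := by
    rw [Measure.prod_restrict]
    refine AEMeasurable.ennreal_ofReal ?_
    have hc : ContinuousOn (fun p : ℝ × ℝ => Φ p.1 p.2) (Ioi (0 : ℝ) ×ˢ Ioc θ θ') := by
      have hsub : Ioi (0 : ℝ) ×ˢ Ioc θ θ' ⊆ Ioi (0 : ℝ) ×ˢ Icc θ θ' :=
        prod_mono le_rfl Ioc_subset_Icc_self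
      have k1 := c1.mono hsub
      have k2 := c2.mono hsub
      have k0 : ContinuousOn (fun p : ℝ × ℝ => p.1 ^ j) (Ioi (0 : ℝ) ×ˢ Ioc θ θ') :=
        (continuous_fst.pow j).continuousOn
      exact continuousOn_const.mul ((k0.mul k1.abs).mul k2)
    exact (hc.aestronglyMeasurable (measurableSet_Ioi.prod measurableSet_Ioc)).aemeasurable
  have hfin : ∫⁻ y in Ioi (0 : ℝ), ENNReal.ofReal ‖gg θ' y * h y - gg θ y * h y‖ ≤
      ENNReal.ofReal (C * (16 * √(mo θ' j)) * (θ' - θ)) := by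
    calc ∫⁻ y in Ioi (0 : ℝ), ENNReal.ofReal ‖gg θ' y * h y - gg θ y * h y‖
        ≤ ∫⁻ y in Ioi (0 : ℝ), ∫⁻ s in Ioc θ θ', ENNReal.ofReal (Φ y s) := by
          refine setLIntegral_mono' measurableSet_Ioi fun y hy => hpt y hy
      _ = ∫⁻ s in Ioc θ θ', ∫⁻ y in Ioi (0 : ℝ), ENNReal.ofReal (Φ y s) :=
          lintegral_lintegral_swap hjoint
      _ ≤ ∫⁻ _s in Ioc θ θ', ENNReal.ofReal (C * (16 * √(mo θ' j))) := by
          refine setLIntegral_mono' measurableSet_Ioc fun s hs => ?_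
          have hs0 : 1 / 4 ≤ s := h0.trans hs.1.le
          have hs1 : s < 1 / 2 := hs.2.trans_lt h1
          obtain ⟨i1, v1⟩ := inner_bound hs0 hs1 (j := j) hM
            (mo_mono (by linarith) hs.2 h1.le j)
          rw [← ofReal_integral_eq_lintegral_ofReal (i1.const_mul C) (by
            filter_upwards [ae_restrict_mem measurableSet_Ioi] with y hy
            exact hΦ0 y hy s)]
          refine ENNReal.ofReal_le_ofReal ?_
          rw [integral_const_mul]
          exact mul_le_mul_of_nonneg_left v1 hC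
      _ = _ := by
          rw [setLIntegral_const, Real.volume_Ioc, ← ENNReal.ofReal_mul (by positivity)]
  have hpos : 0 ≤ C * (16 * √(mo θ' j)) * (θ' - θ) :=
    mul_nonneg (by positivity) (by linarith)
  rw [← Real.norm_eq_abs]
  refine (norm_integral_le_lintegral_norm _).trans ?_
  exact ENNReal.toReal_le_of_le_ofReal hpos hfin

theorem gFI : GFI := by
  intro θ θ' h0 hθ h1 x hx
  have hθ0 : 0 < θ := by linarith
  have hθ0' : 0 < θ' := by linarith
  have hθ1 : θ < 1 / 2 := by linarith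
  have hr : 0 < √x := Real.sqrt_pos.2 hx
  have hrr : √x * √x = x := Real.mul_self_sqrt hx.le
  obtain ⟨a0, a1, a2, -⟩ := (aLAW hθ0 hθ1).2.2.2.2.2.1 x hx.le
  obtain ⟨b0, b1, b2, -⟩ := (aLAW hθ0' h1).2.2.2.2.2.1 x hx.le
  have m1 := mo_one hθ0' (by linarith : θ' < 1)
  have m0 := mo_zero hθ0' (by linarith : θ' < 1)
  have hk : GKER := Pool.Agent.Helper32.PT.gKER
  obtain ⟨-, -, -, -, k5, -, k7, -, -⟩ := hk
  refine ⟨?_, ?_, ?_⟩
  · have h := main h0 hθ h1 (h := fun y => Real.cos (√x * y)) (by fun_prop) (C := 1) zero_le_one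
      (j := 0) (fun y _ => by rw [pow_zero, mul_one]; exact Real.abs_cos_le_one _)
    rw [m0, Real.sqrt_one, ← a0, ← b0] at h
    linarith
  · have h := main h0 hθ h1 (h := fun y => √x * (y ^ 2 * Real.sinc (√x * y))) (by fun_prop) (C := 1)
      zero_le_one (j := 1) (fun y hy => by
        have hw : √x * y ≠ 0 := by positivity
        rw [Real.sinc_of_ne_zero hw]
        have e : √x * (y ^ 2 * (Real.sin (√x * y) / (√x * y))) = y * Real.sin (√x * y) := by
          field_simp
        rw [e, abs_mul, abs_of_pos hy, one_mul, pow_one]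
        have := Real.abs_sin_le_one (√x * y)
        nlinarith)
    rw [m1, Real.sqrt_one, integral_const_mul, integral_const_mul, ← a1, ← b1, ← mul_sub, abs_mul,
      abs_of_pos hr] at h
    linarith
  · have h := main h0 hθ h1 (h := fun y => x * (y ^ 4 * k2 (√x * y)))
      (by
        have := k7.measurable
        fun_prop) (C := 0.55)
      (by norm_num) (j := 2) (fun y hy => by
        have hw0 : 0 < √x * y := by positivity
        rw [k5 _ hw0.ne']
        have ho := Pool.Agent.Helper90.PT.osc_bound hw0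
        have e : x * (y ^ 4 * ((√x * y * Real.cos (√x * y) - Real.sin (√x * y)) / (2 * (√x * y) ^ 3))) =
            y ^ 2 / (2 * (√x * y)) * (√x * y * Real.cos (√x * y) - Real.sin (√x * y)) := by
          nth_rewrite 1 [← hrr]
          field_simp
        rw [e, abs_mul, abs_of_pos (by positivity)]
        calc y ^ 2 / (2 * (√x * y)) * |√x * y * Real.cos (√x * y) - Real.sin (√x * y)| ≤
            y ^ 2 / (2 * (√x * y)) * (1.1 * (√x * y)) :=
              mul_le_mul_of_nonneg_left ho (by positivity)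
          _ = 0.55 * y ^ 2 := by
              field_simp
              norm_num)
    rw [integral_const_mul, integral_const_mul, ← a2, ← b2, ← mul_sub, abs_mul,
      abs_of_pos hx] at h
    have e : (0.55 : ℝ) * (16 * √(mo θ' 2)) * (θ' - θ) = 8.8 * √(mo θ' 2) * (θ' - θ) := by ring
    rw [e] at h
    exact h

end Pool.Agent.Helper70.PT
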