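import Pool.Agent.Helper88.Gam.Values

/-! # Packet PT-FI, part a: the derivative of the Gamma function -/

namespace Pool.Agent.Helper70.PT

open MeasureTheory Set Filter Topology

/-- the derivative of the real Gamma function -/
noncomputable def dG (s : ℝ) : ℝ := deriv Real.Gamma s

/-- the digamma function -/
noncomputable def ps (s : ℝ) : ℝ := dG s / Real.Gamma s

theorem hasDerivAt_Gamma {s : ℝ} (hs : 0 < s) : HasDerivAt Real.Gamma (dG s) s :=
  (Real.differentiableAt_Gamma (by
    intro m h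
    have : (0 : ℝ) ≤ m := Nat.cast_nonneg m
    linarith)).hasDerivAt

theorem dG_eq_re {s : ℝ} (hs : 0 < s) : dG s = (deriv Complex.Gamma (s : ℂ)).re := by
  have h : DifferentiableAt ℂ Complex.Gamma (s : ℂ) := by
    refine Complex.differentiableAt_Gamma _ fun m h => ?_
    have h1 := congrArg Complex.re h
    simp at h1
    have : (0 : ℝ) ≤ m := Nat.cast_nonneg m
    linarith
  exact (hasDerivAt_Gamma hs).unique h.hasDerivAt.real_of_complex

theorem continuousOn_dG : ContinuousOn dG (Ioi 0) := by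
  have hopen : IsOpen {z : ℂ | 0 < z.re} := Complex.continuous_re.isOpen_preimage _ isOpen_Ioi
  have h1 : DifferentiableOn ℂ Complex.Gamma {z : ℂ | 0 < z.re} := by
    intro z hz
    refine (Complex.differentiableAt_Gamma _ fun m h => ?_).differentiableWithinAt
    have h1 := congrArg Complex.re h
    have hz' : 0 < z.re := hz
    simp at h1
    have : (0 : ℝ) ≤ m := Nat.cast_nonneg m
    linarith
  have h2 := (h1.deriv hopen).continuousOn
  have h3 : ContinuousOn (fun s : ℝ => (deriv Complex.Gamma (s : ℂ)).re) (Ioi 0) := by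
    refine Complex.continuous_re.comp_continuousOn (h2.comp Complex.continuous_ofReal.continuousOn ?_)
    intro s hs
    simpa using hs
  exact h3.congr fun s hs => dG_eq_re hs

/-- `|log t| ≤ (t^e + t^(-e))/e` -/
theorem abs_log_le {e t : ℝ} (he : 0 < e) (ht : 0 < t) :
    |Real.log t| ≤ (t ^ e + t ^ (-e)) / e := by
  rw [le_div_iff₀ he]
  have h1 : Real.log t * e ≤ t ^ e := by
    have := Real.add_one_le_exp (Real.log t * e)
    rw [← Real.rpow_def_of_pos ht] at this
    linarith
  have h2 : -(Real.log t * e) ≤ t ^ (-e) := by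
    have := Real.add_one_le_exp (Real.log t * (-e))
    rw [← Real.rpow_def_of_pos ht] at this
    linarith
  have h3 := Real.rpow_pos_of_pos ht e
  have h4 := Real.rpow_pos_of_pos ht (-e)
  rcases abs_cases (Real.log t) with ⟨h, -⟩ | ⟨h, -⟩ <;> rw [h] <;> nlinarith

theorem int_rpow {s : ℝ} (hs : 0 < s) :
    IntegrableOn (fun t : ℝ => t ^ (s - 1) * Real.exp (-t)) (Ioi 0) :=
  (Real.GammaIntegral_convergent hs).congr_fun (fun _ _ => mul_comm _ _) measurableSet_Ioi

theorem integral_rpow_exp {s : ℝ} (hs : 0 < s) :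
    ∫ t in Ioi (0 : ℝ), t ^ (s - 1) * Real.exp (-t) = Real.Gamma s := by
  rw [Real.Gamma_eq_integral hs]
  exact setIntegral_congr_fun measurableSet_Ioi fun _ _ => mul_comm _ _

theorem int_log {s : ℝ} (hs : 0 < s) :
    IntegrableOn (fun t : ℝ => t ^ (s - 1) * (Real.log t * Real.exp (-t))) (Ioi 0) := by
  have he : 0 < s / 2 := by linarith
  have h1 := (int_rpow (s := s + s / 2) (by linarith)).add (int_rpow (s := s - s / 2) (by linarith))
  refine Integrable.mono' (h1.div_const (s / 2)) ?_ ?_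
  · refine ContinuousOn.aestronglyMeasurable ?_ measurableSet_Ioi
    refine (ContinuousOn.rpow_const continuousOn_id fun x hx => Or.inl (ne_of_gt hx)).mul ?_
    refine ContinuousOn.mul (Real.continuousOn_log.mono fun x hx => ne_of_gt hx) ?_
    fun_prop
  · filter_upwards [ae_restrict_mem measurableSet_Ioi] with t ht
    have ht0 : 0 < t := ht
    rw [Real.norm_eq_abs, abs_mul, abs_mul, abs_of_pos (Real.exp_pos _),
      abs_of_pos (Real.rpow_pos_of_pos ht0 _)]
    have h2 := abs_log_le he ht0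
    have h3 : t ^ (s - 1) * (|Real.log t| * Real.exp (-t)) ≤
        t ^ (s - 1) * ((t ^ (s / 2) + t ^ (-(s / 2))) / (s / 2) * Real.exp (-t)) :=
      mul_le_mul_of_nonneg_left (mul_le_mul_of_nonneg_right h2 (Real.exp_pos _).le)
        (Real.rpow_pos_of_pos ht0 _).le
    refine h3.trans (le_of_eq ?_)
    simp only [Pi.add_apply]
    rw [show s + s / 2 - 1 = (s - 1) + s / 2 by ring, show s - s / 2 - 1 = (s - 1) + (-(s / 2)) by ring,
      Real.rpow_add ht0, Real.rpow_add ht0]
    ring

theorem integral_log {s : ℝ} (hs : 0 < s) :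
    ∫ t in Ioi (0 : ℝ), t ^ (s - 1) * (Real.log t * Real.exp (-t)) = dG s := by
  have h1 := Complex.hasDerivAt_GammaIntegral (s := (s : ℂ)) (by simpa using hs)
  have hev : Complex.Gamma =ᶠ[𝓝 (s : ℂ)] Complex.GammaIntegral := by
    have hopen : IsOpen {z : ℂ | 0 < z.re} := Complex.continuous_re.isOpen_preimage _ isOpen_Ioi
    filter_upwards [hopen.mem_nhds (by simpa using hs : (s : ℂ) ∈ {z : ℂ | 0 < z.re})] with z hz
    exact Complex.Gamma_eq_integral hz
  have h2 := (h1.congr_of_eventuallyEq hev).deriv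
  rw [dG_eq_re hs, h2]
  have h3 : ∀ t ∈ Ioi (0 : ℝ), (t : ℂ) ^ ((s : ℂ) - 1) * ((Real.log t : ℂ) * (Real.exp (-t) : ℂ)) =
      ((t ^ (s - 1) * (Real.log t * Real.exp (-t)) : ℝ) : ℂ) := by
    intro t ht
    have ht0 : 0 < t := ht
    push_cast
    rw [Complex.ofReal_cpow ht0.le]
    push_cast
    rfl
  rw [setIntegral_congr_fun measurableSet_Ioi h3, integral_complex_ofReal]
  simp

/-- `Γ'(s+1) = Γ(s) + s Γ'(s)` -/
theorem dG_add_one {s : ℝ} (hs : 0 < s) : dG (s + 1) = Real.Gamma s + s * dG s := by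
  have h1 : HasDerivAt (fun x => Real.Gamma (x + 1)) (dG (s + 1)) s :=
    HasDerivAt.comp_add_const s 1 (hasDerivAt_Gamma (by linarith))
  have h2 : HasDerivAt (fun x => x * Real.Gamma x) (1 * Real.Gamma s + s * dG s) s :=
    (hasDerivAt_id s).mul (hasDerivAt_Gamma hs)
  have h3 : (fun x => Real.Gamma (x + 1)) =ᶠ[𝓝 s] fun x => x * Real.Gamma x := by
    filter_upwards [lt_mem_nhds hs] with x hx
    exact Real.Gamma_add_one hx.ne'
  have h4 := (h2.congr_of_eventuallyEq h3).unique h1
  rw [← h4]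
  ring

theorem hasDerivAt_logGamma {s : ℝ} (hs : 0 < s) :
    HasDerivAt (fun x => Real.log (Real.Gamma x)) (ps s) s :=
  (hasDerivAt_Gamma hs).log (Real.Gamma_pos_of_pos hs).ne'

theorem ps_mono {s t : ℝ} (hs : 0 < s) (hst : s ≤ t) : ps s ≤ ps t := by
  rcases hst.eq_or_lt with rfl | h
  · exact le_rfl
  have ht : 0 < t := hs.trans h
  have hc := Real.convexOn_log_Gamma
  have h1 := hc.le_slope_of_hasDerivAt (x := s) (y := t) hs ht h (hasDerivAt_logGamma hs)
  have h2 := hc.slope_le_of_hasDerivAt (x := s) (y := t) hs ht h (hasDerivAt_logGamma ht)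
  exact h1.trans h2

theorem continuousOn_ps : ContinuousOn ps (Ioi 0) := by
  refine continuousOn_dG.div ?_ fun s hs => (Real.Gamma_pos_of_pos hs).ne'
  intro s hs
  exact (hasDerivAt_Gamma hs).continuousAt.continuousWithinAt

theorem ps_one : ps 1 = -Real.eulerMascheroniConstant := by
  unfold ps dG
  rw [Real.hasDerivAt_Gamma_one.deriv, Real.Gamma_one, div_one]

theorem ps_two : ps 2 = 1 - Real.eulerMascheroniConstant := by
  unfold ps
  have := dG_add_one (s := 1) one_pos
  rw [show (1 : ℝ) + 1 = 2 by norm_num, Real.Gamma_one] at this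
  rw [this, Real.Gamma_two, div_one]
  unfold dG
  rw [Real.hasDerivAt_Gamma_one.deriv]
  ring

theorem ps_half : ps (1 / 2) = -Real.eulerMascheroniConstant - 2 * Real.log 2 := by
  unfold ps dG
  rw [Real.hasDerivAt_Gamma_one_half.deriv, Real.Gamma_one_half_eq]
  have : √Real.pi ≠ 0 := (Real.sqrt_pos.2 Real.pi_pos).ne'
  field_simp
  ring

/-- `σ'/σ` -/
noncomputable def ka (s : ℝ) : ℝ := (ps (1 + s) + ps (1 - s)) / 2

theorem ka_bound {s : ℝ} (h0 : 0 < s) (h1 : s < 1 / 2) : -1.36 ≤ ka s ∧ ka s ≤ 0 := by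
  have e1 := ps_mono (s := 1) (t := 1 + s) one_pos (by linarith)
  have e2 := ps_mono (s := 1 / 2) (t := 1 - s) (by norm_num) (by linarith)
  have e3 := ps_mono (s := 1 + s) (t := 2) (by linarith) (by linarith)
  have e4 := ps_mono (s := 1 - s) (t := 1) (by linarith) (by linarith)
  rw [ps_one] at e1 e4
  rw [ps_half] at e2
  rw [ps_two] at e3
  have g1 := Real.one_half_lt_eulerMascheroniConstant
  have g2 := Real.eulerMascheroniConstant_lt_two_thirds
  have l2 := Real.log_two_lt_d9
  unfold ka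
  constructor <;> linarith

theorem Gamma_ge {k : ℝ} (h0 : 0 < k) (h1 : k ≤ 3 / 4) : 1.2254 ≤ Real.Gamma k := by
  have h2 := Pool.Agent.Helper88.Gam.one_sub_8.1
  have h3 : Real.Gamma (1 - 24 / 96) ≤ Real.Gamma k := by
    rcases h1.eq_or_lt with rfl | h
    · apply le_of_eq
      norm_num
    · exact (Real.Gamma_strictAntiOn_Ioc ⟨h0, by linarith⟩ (by constructor <;> norm_num)
        (by norm_num; linarith)).le
  refine le_trans ?_ h3
  refine le_trans ?_ h2
  norm_num

end Pool.Agent.Helper70.PT
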