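import Pool.Agent.Helper70.PT.FIa

/-! # Packet PT-FI, part b: the Fisher information of the parameter -/

namespace Pool.Agent.Helper70.PT

open MeasureTheory Set Filter Topology

/-- `|log v| ≤ |v - 1/v|/2`, squared and with `w = v ^ (1/e)` -/
theorem log_sq_le {w : ℝ} (hw : 0 < w) {e : ℝ} (he : 0 < e) :
    Real.log w ^ 2 ≤ (w ^ e - 2 + w ^ (-e)) / e ^ 2 := by
  have h1 : ∀ x : ℝ, x ^ 2 ≤ Real.sinh x ^ 2 := by
    intro x
    rcases le_total 0 x with h | h
    · have := Real.self_le_sinh_iff.2 h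
      exact pow_le_pow_left₀ h this 2
    · have := Real.sinh_le_self_iff.2 h
      nlinarith
  have h2 := h1 (Real.log w * e / 2)
  have h3 : Real.sinh (Real.log w * e / 2) ^ 2 = (w ^ e - 2 + w ^ (-e)) / 4 := by
    rw [Real.sinh_eq, Real.rpow_def_of_pos hw, Real.rpow_def_of_pos hw]
    have e1 : Real.exp (Real.log w * e) = Real.exp (Real.log w * e / 2) ^ 2 := by
      rw [← Real.exp_nat_mul]
      congr 1
      push_cast
      ring
    have e2 : Real.exp (Real.log w * -e) = Real.exp (-(Real.log w * e / 2)) ^ 2 := by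
      rw [← Real.exp_nat_mul]
      congr 1
      push_cast
      ring
    have e3 : Real.exp (Real.log w * e / 2) * Real.exp (-(Real.log w * e / 2)) = 1 := by
      rw [← Real.exp_add, add_neg_cancel, Real.exp_zero]
    rw [e1, e2]
    nlinarith [e3]
  rw [h3] at h2
  rw [le_div_iff₀ (by positivity)]
  nlinarith [h2]

/-- `∫ A²` over `(1,∞)` -/
theorem tail_int : IntegrableOn (fun w : ℝ => (w ^ 3 - 4 * w ^ 2 + 6 * w - 3) * Real.exp (-w)) (Ioi 1) ∧
    ∫ w in Ioi (1 : ℝ), (w ^ 3 - 4 * w ^ 2 + 6 * w - 3) * Real.exp (-w) = 5 * Real.exp (-1) := by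
  have hd : ∀ x ∈ Ioi (1 : ℝ), HasDerivAt (fun w : ℝ => -((w ^ 3 - w ^ 2 + 4 * w + 1) * Real.exp (-w)))
      ((x ^ 3 - 4 * x ^ 2 + 6 * x - 3) * Real.exp (-x)) x := by
    intro x _
    have h1 : HasDerivAt (fun w : ℝ => w ^ 3 - w ^ 2 + 4 * w + 1) (3 * x ^ 2 - 2 * x + 4) x := by
      have := (((hasDerivAt_pow 3 x).sub (hasDerivAt_pow 2 x)).add ((hasDerivAt_id x).const_mul 4)).add_const (1 : ℝ)
      refine this.congr_deriv ?_
      push_cast
      ring
    have h2 : HasDerivAt (fun w : ℝ => Real.exp (-w)) (-Real.exp (-x)) x := by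
      have := (hasDerivAt_neg x).exp
      refine this.congr_deriv ?_
      ring
    refine ((h1.mul h2).neg).congr_deriv ?_
    ring
  have hpos : ∀ x ∈ Ioi (1 : ℝ), 0 ≤ (x ^ 3 - 4 * x ^ 2 + 6 * x - 3) * Real.exp (-x) := by
    intro x hx
    have hx1 : 1 < x := hx
    refine mul_nonneg ?_ (Real.exp_pos _).le
    have : x ^ 3 - 4 * x ^ 2 + 6 * x - 3 = (x - 1) * ((x - 1) ^ 2 - (x - 1) + 1) := by ring
    rw [this]
    exact mul_nonneg (by linarith) (by nlinarith [sq_nonneg (x - 1 - 1 / 2)])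
  have hcont : ContinuousWithinAt (fun w : ℝ => -((w ^ 3 - w ^ 2 + 4 * w + 1) * Real.exp (-w))) (Ici 1) 1 := by
    refine Continuous.continuousWithinAt ?_
    fun_prop
  have hlim : Tendsto (fun w : ℝ => -((w ^ 3 - w ^ 2 + 4 * w + 1) * Real.exp (-w))) atTop (𝓝 0) := by
    have t3 := Real.tendsto_pow_mul_exp_neg_atTop_nhds_zero 3
    have t2 := Real.tendsto_pow_mul_exp_neg_atTop_nhds_zero 2
    have t1 := Real.tendsto_pow_mul_exp_neg_atTop_nhds_zero 1
    have t0 := Real.tendsto_pow_mul_exp_neg_atTop_nhds_zero 0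
    have := (((t3.sub t2).add (t1.const_mul 4)).add t0).neg
    simp only [sub_zero, mul_zero, add_zero, neg_zero] at this
    refine this.congr fun w => ?_
    ring
  refine ⟨integrableOn_Ioi_deriv_of_nonneg hcont hd hpos hlim, ?_⟩
  rw [integral_Ioi_of_hasDerivAt_of_nonneg hcont hd hpos hlim]
  norm_num

theorem head_int {k : ℝ} (h0 : 1 / 2 < k) :
    IntegrableOn (fun w : ℝ => 16 * (w ^ (k - 3 / 4) - 2 * w ^ (k - 1) + w ^ (k - 5 / 4))) (Ioc 0 1) ∧
    ∫ w in Ioc (0 : ℝ) 1, 16 * (w ^ (k - 3 / 4) - 2 * w ^ (k - 1) + w ^ (k - 5 / 4)) =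
      2 / (k * (k ^ 2 - 1 / 16)) := by
  have i1 : IntervalIntegrable (fun w : ℝ => w ^ (k - 3 / 4)) volume 0 1 :=
    intervalIntegral.intervalIntegrable_rpow' (by linarith)
  have i2 : IntervalIntegrable (fun w : ℝ => w ^ (k - 1)) volume 0 1 :=
    intervalIntegral.intervalIntegrable_rpow' (by linarith)
  have i3 : IntervalIntegrable (fun w : ℝ => w ^ (k - 5 / 4)) volume 0 1 :=
    intervalIntegral.intervalIntegrable_rpow' (by linarith)
  have i4 := ((i1.sub (i2.const_mul 2)).add i3).const_mul 16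
  refine ⟨(intervalIntegrable_iff_integrableOn_Ioc_of_le zero_le_one).1 i4, ?_⟩
  rw [← intervalIntegral.integral_of_le zero_le_one, intervalIntegral.integral_const_mul,
    intervalIntegral.integral_add (i1.sub (i2.const_mul 2)) i3,
    intervalIntegral.integral_sub i1 (i2.const_mul 2), intervalIntegral.integral_const_mul,
    integral_rpow (Or.inl (by linarith)), integral_rpow (Or.inl (by linarith)),
    integral_rpow (Or.inl (by linarith))]
  rw [Real.one_rpow, Real.one_rpow, Real.one_rpow, Real.zero_rpow (by linarith),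
    Real.zero_rpow (by linarith), Real.zero_rpow (by linarith)]
  rw [show k - 3 / 4 + 1 = k + 1 / 4 by ring, show k - 1 + 1 = k by ring,
    show k - 5 / 4 + 1 = k - 1 / 4 by ring, show k ^ 2 - 1 / 16 = (k + 1 / 4) * (k - 1 / 4) by ring]
  have e1 : k + 1 / 4 ≠ 0 := by linarith
  have e3 : k - 1 / 4 ≠ 0 := by linarith
  have e4 : k ≠ 0 := by linarith
  generalize hu : k + 1 / 4 = u at *
  generalize hv : k - 1 / 4 = v at *
  have e5 : u = k + 1 / 4 := hu.symm
  have e6 : v = k - 1 / 4 := hv.symm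
  field_simp
  rw [e5, e6]
  ring

theorem A2 {k : ℝ} (h0 : 1 / 2 < k) (h1 : k ≤ 3 / 4) :
    IntegrableOn (fun w : ℝ => ((w - 1) * Real.log w) ^ 2 * (w ^ (k - 1) * Real.exp (-w))) (Ioi 0) ∧
    ∫ w in Ioi (0 : ℝ), ((w - 1) * Real.log w) ^ 2 * (w ^ (k - 1) * Real.exp (-w)) ≤
      2 / (k * (k ^ 2 - 1 / 16)) + 1.84 := by
  set F : ℝ → ℝ := fun w => ((w - 1) * Real.log w) ^ 2 * (w ^ (k - 1) * Real.exp (-w)) with hF
  have hsplit : Ioi (0 : ℝ) = Ioc 0 1 ∪ Ioi 1 := (Ioc_union_Ioi_eq_Ioi zero_le_one).symm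
  have hmeas : AEStronglyMeasurable F (volume.restrict (Ioi 0)) := by
    refine ContinuousOn.aestronglyMeasurable ?_ measurableSet_Ioi
    have hl : ContinuousOn Real.log (Ioi 0) := Real.continuousOn_log.mono fun x hx => ne_of_gt hx
    have hr : ContinuousOn (fun w : ℝ => w ^ (k - 1)) (Ioi 0) :=
      ContinuousOn.rpow_const continuousOn_id fun x hx => Or.inl (ne_of_gt hx)
    exact (((continuousOn_id.sub continuousOn_const).mul hl).pow 2).mul
      (hr.mul (by fun_prop))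
  have hF0 : ∀ w, 0 < w → 0 ≤ F w := by
    intro w hw
    have := Real.rpow_pos_of_pos hw (k - 1)
    have := Real.exp_pos (-w)
    simp only [hF]
    positivity
  obtain ⟨hi1, hv1⟩ := head_int h0
  obtain ⟨hi2, hv2⟩ := tail_int
  have b1 : ∀ w ∈ Ioc (0 : ℝ) 1, F w ≤ 16 * (w ^ (k - 3 / 4) - 2 * w ^ (k - 1) + w ^ (k - 5 / 4)) := by
    intro w hw
    have hw0 : 0 < w := hw.1
    have hl := log_sq_le hw0 (e := 1 / 4) (by norm_num)
    have hr := Real.rpow_pos_of_pos hw0 (k - 1)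
    have he : Real.exp (-w) ≤ 1 := Real.exp_le_one_iff.2 (by linarith)
    have hq : (w - 1) ^ 2 ≤ 1 := by nlinarith [hw.1, hw.2]
    calc F w = ((w - 1) ^ 2 * Real.exp (-w)) * (Real.log w ^ 2 * w ^ (k - 1)) := by
          simp only [hF]
          ring
      _ ≤ 1 * (Real.log w ^ 2 * w ^ (k - 1)) := by
          refine mul_le_mul_of_nonneg_right ?_ (by positivity)
          calc (w - 1) ^ 2 * Real.exp (-w) ≤ 1 * 1 :=
                mul_le_mul hq he (Real.exp_pos _).le (by norm_num)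
            _ = 1 := by norm_num
      _ ≤ 1 * ((w ^ (1 / 4 : ℝ) - 2 + w ^ (-(1 / 4) : ℝ)) / (1 / 4) ^ 2 * w ^ (k - 1)) := by
          rw [one_mul, one_mul]
          exact mul_le_mul_of_nonneg_right hl hr.le
      _ = _ := by
          rw [show k - 3 / 4 = (k - 1) + 1 / 4 by ring, show k - 5 / 4 = (k - 1) + (-(1 / 4)) by ring,
            Real.rpow_add hw0, Real.rpow_add hw0]
          ring
  have b2 : ∀ w ∈ Ioi (1 : ℝ), F w ≤ (w ^ 3 - 4 * w ^ 2 + 6 * w - 3) * Real.exp (-w) := by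
    intro w hw
    have hw1 : 1 < w := hw
    have hw0 : 0 < w := by linarith
    have hl := log_sq_le hw0 (e := 1) one_pos
    rw [Real.rpow_neg hw0.le, Real.rpow_one] at hl
    have hr : w ^ (k - 1) ≤ 1 := Real.rpow_le_one_of_one_le_of_nonpos hw1.le (by linarith)
    have hr0 := Real.rpow_pos_of_pos hw0 (k - 1)
    have hl' : Real.log w ^ 2 ≤ (w - 1) ^ 2 / w := by
      refine hl.trans (le_of_eq ?_)
      field_simp
      ring
    calc F w = ((w - 1) ^ 2 * Real.log w ^ 2 * w ^ (k - 1)) * Real.exp (-w) := by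
          simp only [hF]
          ring
      _ ≤ ((w - 1) ^ 2 * ((w - 1) ^ 2 / w) * 1) * Real.exp (-w) := by
          refine mul_le_mul_of_nonneg_right ?_ (Real.exp_pos _).le
          exact mul_le_mul (mul_le_mul_of_nonneg_left hl' (sq_nonneg _)) hr hr0.le (by positivity)
      _ ≤ _ := by
          refine mul_le_mul_of_nonneg_right ?_ (Real.exp_pos _).le
          rw [mul_one, ← mul_div_assoc, div_le_iff₀ hw0]
          nlinarith
  have j1 : IntegrableOn F (Ioc 0 1) := by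
    refine Integrable.mono' hi1 (hmeas.mono_set (by rw [hsplit]; exact subset_union_left)) ?_
    filter_upwards [ae_restrict_mem measurableSet_Ioc] with w hw
    rw [Real.norm_eq_abs, abs_of_nonneg (hF0 w hw.1)]
    exact b1 w hw
  have j2 : IntegrableOn F (Ioi 1) := by
    refine Integrable.mono' hi2 (hmeas.mono_set (by rw [hsplit]; exact subset_union_right)) ?_
    filter_upwards [ae_restrict_mem measurableSet_Ioi] with w hw
    have hw1 : 1 < w := hw
    rw [Real.norm_eq_abs, abs_of_nonneg (hF0 w (by linarith))]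
    exact b2 w hw
  refine ⟨by rw [hsplit]; exact j1.union j2, ?_⟩
  rw [hsplit, setIntegral_union (by
    rw [Set.disjoint_left]
    intro x hx hx'
    exact absurd hx.2 (not_le.2 hx')) measurableSet_Ioi j1 j2]
  have k1 : ∫ w in Ioc (0 : ℝ) 1, F w ≤ 2 / (k * (k ^ 2 - 1 / 16)) := by
    rw [← hv1]
    exact setIntegral_mono_on j1 hi1 measurableSet_Ioc b1
  have k2 : ∫ w in Ioi (1 : ℝ), F w ≤ 5 * Real.exp (-1) := by
    rw [← hv2]
    exact setIntegral_mono_on j2 hi2 measurableSet_Ioi b2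
  have k3 : 5 * Real.exp (-1) ≤ 1.84 := by
    have h := Real.exp_one_gt_d9
    rw [Real.exp_neg]
    rw [← div_eq_mul_inv, div_le_iff₀ (Real.exp_pos _)]
    linarith
  linarith

/-- the numerical inequality -/
theorem num_ineq {k : ℝ} (h0 : 1 / 2 ≤ k) (h1 : k ≤ 3 / 4) :
    1.64 * (2 / (k * (k ^ 2 - 1 / 16)) + 1.84) / 1.2254 + 41 / 16 * 1.8496 * (k * (k + 1)) ≤
      256 * (1 - k) ^ 2 := by
  obtain ⟨t, rfl⟩ : ∃ t, k = 3 / 4 - t := ⟨3 / 4 - k, by ring⟩
  have ht0 : 0 ≤ t := by linarith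
  have ht1 : t ≤ 1 / 4 := by linarith
  have hpos : 0 < (3 / 4 - t) * ((3 / 4 - t) ^ 2 - 1 / 16) := by
    refine mul_pos (by linarith) ?_
    nlinarith
  have hr : 2 / ((3 / 4 - t) * ((3 / 4 - t) ^ 2 - 1 / 16)) ≤ 16 / 3 + 24 * t + 170 * t ^ 2 := by
    rw [div_le_iff₀ hpos]
    have e : (16 / 3 + 24 * t + 170 * t ^ 2) * ((3 / 4 - t) * ((3 / 4 - t) ^ 2 - 1 / 16)) - 2 =
        t * (1 / 3 + 36.75 * t - (2731 / 12) * t ^ 2 + 358.5 * t ^ 3 - 170 * t ^ 4) := by ring
    have h2 : 0 ≤ 1 / 3 + 36.75 * t - (2731 / 12) * t ^ 2 + 358.5 * t ^ 3 - 170 * t ^ 4 := by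
      have h3 : 0 ≤ t * (1 / 4 - t) := mul_nonneg ht0 (by linarith)
      have h4 : 0 ≤ t ^ 2 * (1 / 4 - t) := mul_nonneg (sq_nonneg _) (by linarith)
      have h5 : 0 ≤ t ^ 3 * (1 / 4 - t) := mul_nonneg (pow_nonneg ht0 3) (by linarith)
      nlinarith [mul_nonneg ht0 (sq_nonneg (1 / 4 - t)), sq_nonneg (t * (1 / 4 - t)), sq_nonneg (1 / 4 - t)]
    have h3 := mul_nonneg ht0 h2
    linarith
  have h2 : 1.64 * (2 / ((3 / 4 - t) * ((3 / 4 - t) ^ 2 - 1 / 16)) + 1.84) / 1.2254 ≤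
      1.64 * ((16 / 3 + 24 * t + 170 * t ^ 2) + 1.84) / 1.2254 := by
    refine div_le_div_of_nonneg_right ?_ (by norm_num)
    linarith
  have h3 : 1.64 * ((16 / 3 + 24 * t + 170 * t ^ 2) + 1.84) / 1.2254 ≤
      1.3384 * ((16 / 3 + 24 * t + 170 * t ^ 2) + 1.84) := by
    rw [div_le_iff₀ (by norm_num)]
    nlinarith [sq_nonneg t]
  refine le_trans (add_le_add_left (h2.trans h3) _) ?_
  nlinarith [sq_nonneg t]

end Pool.Agent.Helper70.PT
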