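import Pool.Agent.Helper70.PT.FIb

/-! # Packet PT-FI, part c: the Fisher information of the parameter -/

namespace Pool.Agent.Helper70.PT

open MeasureTheory Set Filter Topology

/-- the score as a function of `W` -/
noncomputable def Tw (s w : ℝ) : ℝ :=
  1 / s * ((w - 1) * Real.log w - 1) - ka s * (1 / s * w - (1 / s - 1)) + ps (1 - s)

/-- the weight -/
noncomputable def wt (s w : ℝ) : ℝ := w ^ (-s) * Real.exp (-w)

theorem wt_pos {s w : ℝ} (hw : 0 < w) : 0 < wt s w :=
  mul_pos (Real.rpow_pos_of_pos hw _) (Real.exp_pos _)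

theorem fisher {s : ℝ} (h0 : 1 / 4 ≤ s) (h1 : s < 1 / 2) :
    IntegrableOn (fun w => Tw s w ^ 2 * wt s w) (Ioi 0) ∧
    ∫ w in Ioi (0 : ℝ), Tw s w ^ 2 * wt s w ≤ 256 * Real.Gamma (1 - s) := by
  set k := 1 - s with hk
  have hs0 : 0 < s := by linarith
  have hk0 : 1 / 2 < k := by linarith
  have hk1 : k ≤ 3 / 4 := by linarith
  have hkp : 0 < k := by linarith
  have hwt : ∀ w, wt s w = w ^ (k - 1) * Real.exp (-w) := by
    intro w
    unfold wt
    rw [hk]
    congr 2
    ring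
  have hΓ := Real.Gamma_pos_of_pos hkp
  have hΓ1 : Real.Gamma (k + 1) = k * Real.Gamma k := Real.Gamma_add_one hkp.ne'
  have hΓ2 : Real.Gamma (k + 2) = (k + 1) * (k * Real.Gamma k) := by
    rw [show k + 2 = (k + 1) + 1 by ring, Real.Gamma_add_one (by linarith), hΓ1]
  obtain ⟨κ, hκ⟩ : ∃ κ, κ = ka s := ⟨_, rfl⟩
  obtain ⟨κ1, κ2⟩ := ka_bound hs0 h1
  rw [← hκ] at κ1 κ2
  have hκ3 : κ ^ 2 ≤ 1.8496 := by nlinarith
  -- basic integrals
  have a0 : IntegrableOn (fun w : ℝ => wt s w) (Ioi 0) := by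
    simp only [hwt]
    exact int_rpow hkp
  have v0 : ∫ w in Ioi (0 : ℝ), wt s w = Real.Gamma k := by
    simp only [hwt]
    exact integral_rpow_exp hkp
  have hw1 : ∀ w ∈ Ioi (0 : ℝ), w ^ (k + 1 - 1) * Real.exp (-w) = w * wt s w := by
    intro w hw
    have hw0 : 0 < w := hw
    rw [hwt, show k + 1 - 1 = (k - 1) + 1 by ring, Real.rpow_add hw0, Real.rpow_one]
    ring
  have hw2 : ∀ w ∈ Ioi (0 : ℝ), w ^ (k + 2 - 1) * Real.exp (-w) = w ^ 2 * wt s w := by
    intro w hw
    have hw0 : 0 < w := hw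
    rw [hwt, show k + 2 - 1 = (k - 1) + (2 : ℕ) by push_cast; ring, Real.rpow_add hw0, Real.rpow_natCast]
    ring
  have a1 : IntegrableOn (fun w : ℝ => w * wt s w) (Ioi 0) :=
    (int_rpow (s := k + 1) (by linarith)).congr_fun hw1 measurableSet_Ioi
  have v1 : ∫ w in Ioi (0 : ℝ), w * wt s w = k * Real.Gamma k := by
    rw [← hΓ1, ← integral_rpow_exp (s := k + 1) (by linarith)]
    exact (setIntegral_congr_fun measurableSet_Ioi hw1).symm
  have a2 : IntegrableOn (fun w : ℝ => w ^ 2 * wt s w) (Ioi 0) :=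
    (int_rpow (s := k + 2) (by linarith)).congr_fun hw2 measurableSet_Ioi
  have v2 : ∫ w in Ioi (0 : ℝ), w ^ 2 * wt s w = (k + 1) * (k * Real.Gamma k) := by
    rw [← hΓ2, ← integral_rpow_exp (s := k + 2) (by linarith)]
    exact (setIntegral_congr_fun measurableSet_Ioi hw2).symm
  have hA : ∀ w ∈ Ioi (0 : ℝ), w ^ (k + 1 - 1) * (Real.log w * Real.exp (-w)) -
      w ^ (k - 1) * (Real.log w * Real.exp (-w)) = (w - 1) * Real.log w * wt s w := by
    intro w hw
    have hw0 : 0 < w := hw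
    rw [hwt, show k + 1 - 1 = (k - 1) + 1 by ring, Real.rpow_add hw0, Real.rpow_one]
    ring
  have aA : IntegrableOn (fun w : ℝ => (w - 1) * Real.log w * wt s w) (Ioi 0) :=
    ((int_log (s := k + 1) (by linarith)).sub (int_log hkp)).congr_fun hA measurableSet_Ioi
  have vA : ∫ w in Ioi (0 : ℝ), (w - 1) * Real.log w * wt s w = Real.Gamma k - s * dG k := by
    rw [← setIntegral_congr_fun measurableSet_Ioi hA,
      integral_sub (int_log (s := k + 1) (by linarith)) (int_log hkp),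
      integral_log (s := k + 1) (by linarith), integral_log hkp, dG_add_one hkp, hk]
    ring
  obtain ⟨aA2, vA2⟩ := A2 hk0 hk1
  have eA2 : ∀ w : ℝ, ((w - 1) * Real.log w) ^ 2 * (w ^ (k - 1) * Real.exp (-w)) =
      ((w - 1) * Real.log w) ^ 2 * wt s w := fun w => by rw [hwt]
  simp only [eA2] at aA2 vA2
  -- `X = A - κ B`
  have aX : IntegrableOn (fun w : ℝ => ((w - 1) * Real.log w - κ * w) * wt s w) (Ioi 0) := by
    refine (aA.sub (a1.const_mul κ)).congr_fun (fun w _ => ?_) measurableSet_Ioi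
    simp only [Pi.sub_apply]
    ring
  have vX : ∫ w in Ioi (0 : ℝ), ((w - 1) * Real.log w - κ * w) * wt s w =
      (Real.Gamma k - s * dG k) - κ * (k * Real.Gamma k) := by
    rw [← vA, ← v1, ← integral_const_mul, ← integral_sub aA (a1.const_mul κ)]
    refine setIntegral_congr_fun measurableSet_Ioi fun w _ => ?_
    ring
  have hbd : ∀ w ∈ Ioi (0 : ℝ), ((w - 1) * Real.log w - κ * w) ^ 2 * wt s w ≤
      1.64 * (((w - 1) * Real.log w) ^ 2 * wt s w) + 41 / 16 * 1.8496 * (w ^ 2 * wt s w) := by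
    intro w hw
    have hp := wt_pos (s := s) hw
    have h2 : ((w - 1) * Real.log w - κ * w) ^ 2 ≤
        1.64 * ((w - 1) * Real.log w) ^ 2 + 41 / 16 * 1.8496 * w ^ 2 := by
      have h3 : ((w - 1) * Real.log w - κ * w) ^ 2 ≤
          1.64 * ((w - 1) * Real.log w) ^ 2 + 41 / 16 * (κ ^ 2 * w ^ 2) := by
        nlinarith [sq_nonneg (4 / 5 * ((w - 1) * Real.log w) + 5 / 4 * (κ * w))]
      have h4 : κ ^ 2 * w ^ 2 ≤ 1.8496 * w ^ 2 := mul_le_mul_of_nonneg_right hκ3 (sq_nonneg w)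
      linarith
    have h5 := mul_le_mul_of_nonneg_right h2 hp.le
    linarith
  have hdom := (aA2.const_mul 1.64).add (a2.const_mul (41 / 16 * 1.8496))
  have aX2 : IntegrableOn (fun w : ℝ => ((w - 1) * Real.log w - κ * w) ^ 2 * wt s w) (Ioi 0) := by
    refine Integrable.mono' hdom ?_ ?_
    · refine ContinuousOn.aestronglyMeasurable ?_ measurableSet_Ioi
      have hl : ContinuousOn Real.log (Ioi 0) := Real.continuousOn_log.mono fun x hx => ne_of_gt hx
      have hr : ContinuousOn (fun w : ℝ => w ^ (-s)) (Ioi 0) :=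
        ContinuousOn.rpow_const continuousOn_id fun x hx => Or.inl (ne_of_gt hx)
      unfold wt
      exact (((((continuousOn_id.sub continuousOn_const).mul hl).sub
        (continuousOn_const.mul continuousOn_id))).pow 2).mul (hr.mul (by fun_prop))
    · filter_upwards [ae_restrict_mem measurableSet_Ioi] with w hw
      have hp := wt_pos (s := s) hw
      rw [Real.norm_eq_abs, abs_of_nonneg (by positivity)]
      exact hbd w hw
  have vX2 : ∫ w in Ioi (0 : ℝ), ((w - 1) * Real.log w - κ * w) ^ 2 * wt s w ≤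
      1.64 * (2 / (k * (k ^ 2 - 1 / 16)) + 1.84) + 41 / 16 * 1.8496 * ((k + 1) * (k * Real.Gamma k)) := by
    refine (setIntegral_mono_on aX2 hdom measurableSet_Ioi hbd).trans ?_
    have e : ∫ w in Ioi (0 : ℝ), (1.64 * (((w - 1) * Real.log w) ^ 2 * wt s w) +
        41 / 16 * 1.8496 * (w ^ 2 * wt s w)) =
        1.64 * (∫ w in Ioi (0 : ℝ), (((w - 1) * Real.log w) ^ 2 * wt s w)) +
        41 / 16 * 1.8496 * (∫ w in Ioi (0 : ℝ), (w ^ 2 * wt s w)) := by
      rw [integral_add (aA2.const_mul 1.64) (a2.const_mul (41 / 16 * 1.8496)), integral_const_mul,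
        integral_const_mul]
    refine le_trans (le_of_eq e) ?_
    rw [v2]
    have : 1.64 * (∫ w in Ioi (0 : ℝ), (((w - 1) * Real.log w) ^ 2 * wt s w)) ≤
        1.64 * (2 / (k * (k ^ 2 - 1 / 16)) + 1.84) :=
      mul_le_mul_of_nonneg_left vA2 (by norm_num)
    linarith
  -- the score
  set q := 1 / s with hq
  have hq0 : 0 < q := by positivity
  have hqs : q * s = 1 := by rw [hq]; field_simp
  obtain ⟨m, hm⟩ : ∃ m, m = q - κ * (q - 1) - ps k := ⟨_, rfl⟩
  have hT : ∀ w, Tw s w = q * ((w - 1) * Real.log w - κ * w) - m := by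
    intro w
    unfold Tw
    rw [hm, ← hκ, ← hq, ← hk]
    ring
  have hps : ps k * Real.Gamma k = dG k := by
    unfold ps
    exact div_mul_cancel₀ _ hΓ.ne'
  have hmX : q * ((Real.Gamma k - s * dG k) - κ * (k * Real.Gamma k)) = m * Real.Gamma k := by
    have hqk : q * k = q - 1 := by rw [hk, mul_sub, mul_one, hqs]
    have e1 : q * ((Real.Gamma k - s * dG k) - κ * (k * Real.Gamma k)) =
        q * Real.Gamma k - (q * s) * dG k - κ * (q * k) * Real.Gamma k := by ring
    rw [e1, hqs, hqk, hm, ← hps]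
    ring
  have hexp : ∀ w, Tw s w ^ 2 * wt s w =
      q ^ 2 * (((w - 1) * Real.log w - κ * w) ^ 2 * wt s w) -
      2 * q * m * (((w - 1) * Real.log w - κ * w) * wt s w) + m ^ 2 * wt s w := by
    intro w
    rw [hT]
    ring
  have aT := ((aX2.const_mul (q ^ 2)).sub (aX.const_mul (2 * q * m))).add (a0.const_mul (m ^ 2))
  simp only [hexp]
  refine ⟨aT, ?_⟩
  have aS : Integrable (fun w : ℝ => q ^ 2 * (((w - 1) * Real.log w - κ * w) ^ 2 * wt s w) -
      2 * q * m * (((w - 1) * Real.log w - κ * w) * wt s w)) (volume.restrict (Ioi 0)) :=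
    (aX2.const_mul (q ^ 2)).sub (aX.const_mul (2 * q * m))
  rw [integral_add aS (a0.const_mul (m ^ 2)),
    integral_sub (aX2.const_mul (q ^ 2)) (aX.const_mul (2 * q * m)), integral_const_mul,
    integral_const_mul, integral_const_mul, vX, v0]
  have e2 : 2 * q * m * ((Real.Gamma k - s * dG k) - κ * (k * Real.Gamma k)) =
      2 * m ^ 2 * Real.Gamma k := by
    calc _ = 2 * m * (q * ((Real.Gamma k - s * dG k) - κ * (k * Real.Gamma k))) := by ring
      _ = _ := by rw [hmX]; ring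
  rw [e2]
  have e3 : 0 ≤ m ^ 2 * Real.Gamma k := by positivity
  have hnum := num_ineq hk0.le hk1
  have hG := Gamma_ge hkp hk1
  have e4 : 1.64 * (2 / (k * (k ^ 2 - 1 / 16)) + 1.84) ≤
      1.64 * (2 / (k * (k ^ 2 - 1 / 16)) + 1.84) / 1.2254 * Real.Gamma k := by
    have hpos : 0 < k * (k ^ 2 - 1 / 16) := mul_pos hkp (by nlinarith)
    have hr : 0 < 2 / (k * (k ^ 2 - 1 / 16)) := by positivity
    rw [div_mul_eq_mul_div, le_div_iff₀ (by norm_num)]
    exact mul_le_mul_of_nonneg_left hG (by positivity)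
  have e5 : ∫ w in Ioi (0 : ℝ), ((w - 1) * Real.log w - κ * w) ^ 2 * wt s w ≤
      256 * s ^ 2 * Real.Gamma k := by
    have e6 := mul_le_mul_of_nonneg_right hnum hΓ.le
    have e7 : 1 - k = s := by rw [hk]; ring
    rw [e7] at e6
    refine vX2.trans ?_
    linarith
  have e8 : q ^ 2 * (∫ w in Ioi (0 : ℝ), ((w - 1) * Real.log w - κ * w) ^ 2 * wt s w) ≤
      256 * Real.Gamma k := by
    refine (mul_le_mul_of_nonneg_left e5 (sq_nonneg q)).trans (le_of_eq ?_)
    calc q ^ 2 * (256 * s ^ 2 * Real.Gamma k) = 256 * (q * s) ^ 2 * Real.Gamma k := by ring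
      _ = _ := by rw [hqs]; ring
  linarith

end Pool.Agent.Helper70.PT
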