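import Pool.Agent.Helper70.PT.FIc
import Pool.Agent.Helper53.PT.GoalsB

/-! # Packet PT-FI, part d: the densities -/

namespace Pool.Agent.Helper70.PT

open MeasureTheory Set Filter Topology
open Pool.Agent.Helper53.PT
open Pool.Agent.Helper93.PT (gd gd_pos gd_meas gd_int nu_rep)

/-- `log σ` -/
noncomputable def ls (s : ℝ) : ℝ := (Real.log (Real.Gamma (1 + s)) - Real.log (Real.Gamma (1 - s))) / 2

theorem hasDerivAt_ls {s : ℝ} (h0 : 0 < s) (h1 : s < 1) : HasDerivAt ls (ka s) s := by
  have e1 : HasDerivAt (fun s : ℝ => Real.log (Real.Gamma (1 + s))) (ps (1 + s)) s :=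
    HasDerivAt.comp_const_add 1 s (hasDerivAt_logGamma (by linarith))
  have e2 : HasDerivAt (fun s : ℝ => Real.log (Real.Gamma (1 - s))) (-ps (1 - s)) s :=
    HasDerivAt.comp_const_sub 1 s (hasDerivAt_logGamma (by linarith))
  refine ((e1.sub e2).div_const 2).congr_deriv ?_
  unfold ka
  ring

/-- the variable `W` -/
noncomputable def WW (s y : ℝ) : ℝ := Real.exp ((ls s + Real.log y) / s)

/-- the density of `nu s` -/
noncomputable def gg (s y : ℝ) : ℝ :=
  Real.exp (-Real.log s + (1 / s - 1) * ls s - Real.log (Real.Gamma (1 - s)) +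
    (1 / s - 2) * Real.log y - WW s y)

theorem gg_pos (s y : ℝ) : 0 < gg s y := Real.exp_pos _

theorem hasDerivAt_gg {s : ℝ} (h0 : 0 < s) (h1 : s < 1) (y : ℝ) :
    HasDerivAt (fun s => gg s y) (Tw s (WW s y) * gg s y) s := by
  have d1 : HasDerivAt (fun s : ℝ => Real.log s) (s⁻¹) s := Real.hasDerivAt_log h0.ne'
  have d2 : HasDerivAt (fun s : ℝ => 1 / s) (-(1 / s ^ 2)) s := by
    have := hasDerivAt_inv h0.ne'
    refine (this.congr_deriv (by rw [one_div])).congr_of_eventuallyEq ?_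
    exact Eventually.of_forall fun x => one_div x
  have d3 := hasDerivAt_ls h0 h1
  have d4 : HasDerivAt (fun s : ℝ => Real.log (Real.Gamma (1 - s))) (-ps (1 - s)) s :=
    HasDerivAt.comp_const_sub 1 s (hasDerivAt_logGamma (by linarith))
  have d5 : HasDerivAt (fun s : ℝ => WW s y)
      (WW s y * ((ka s * s - (ls s + Real.log y) * 1) / s ^ 2)) s :=
    ((d3.add_const (Real.log y)).div (hasDerivAt_id s) h0.ne').exp
  have d6 := (((((d1.neg).add ((d2.sub_const 1).mul d3)).sub d4).add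
    ((d2.sub_const 2).mul_const (Real.log y))).sub d5).exp
  refine d6.congr_deriv ?_
  have hlog : Real.log (WW s y) = (ls s + Real.log y) / s := by
    unfold WW
    rw [Real.log_exp]
  unfold Tw
  rw [hlog]
  show gg s y * _ = _
  rw [mul_comm (gg s y)]
  congr 1
  field_simp
  ring

/-- the score as a function of `(y, s)` -/
theorem cont_score {θ θ' : ℝ} (h0 : 0 < θ) (h1 : θ' < 1) :
    ContinuousOn (fun p : ℝ × ℝ => Tw p.2 (WW p.2 p.1)) (Ioi 0 ×ˢ Icc θ θ') ∧
    ContinuousOn (fun p : ℝ × ℝ => gg p.2 p.1) (Ioi 0 ×ˢ Icc θ θ') := by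
  set S : Set (ℝ × ℝ) := Ioi 0 ×ˢ Icc θ θ' with hS
  have p0 : ∀ p ∈ S, 0 < p.2 := fun p hp => h0.trans_le hp.2.1
  have p1 : ∀ p ∈ S, p.2 < 1 := fun p hp => hp.2.2.trans_lt h1
  have c1 : ContinuousOn (fun p : ℝ × ℝ => p.1) S := continuous_fst.continuousOn
  have c2 : ContinuousOn (fun p : ℝ × ℝ => p.2) S := continuous_snd.continuousOn
  have cy : ContinuousOn (fun p : ℝ × ℝ => Real.log p.1) S := c1.log fun p hp => (ne_of_gt hp.1)
  have cs : ContinuousOn (fun p : ℝ × ℝ => 1 / p.2) S :=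
    continuousOn_const.div c2 fun p hp => (p0 p hp).ne'
  have clog : ContinuousOn (fun p : ℝ × ℝ => Real.log p.2) S := c2.log fun p hp => (p0 p hp).ne'
  have cls : ContinuousOn (fun p : ℝ × ℝ => ls p.2) S := by
    have : ContinuousOn ls (Ioo 0 1) := fun s hs =>
      (hasDerivAt_ls hs.1 hs.2).continuousAt.continuousWithinAt
    exact this.comp c2 fun p hp => ⟨p0 p hp, p1 p hp⟩
  have cG : ContinuousOn (fun p : ℝ × ℝ => Real.log (Real.Gamma (1 - p.2))) S := by
    have : ContinuousOn (fun s : ℝ => Real.log (Real.Gamma s)) (Ioi 0) := fun s hs =>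
      (hasDerivAt_logGamma hs).continuousAt.continuousWithinAt
    exact this.comp (continuousOn_const.sub c2) fun p hp => by
      have := p1 p hp
      show 0 < 1 - p.2
      linarith
  have cp1 : ContinuousOn (fun p : ℝ × ℝ => ps (1 - p.2)) S :=
    continuousOn_ps.comp (continuousOn_const.sub c2) fun p hp => by
      have := p1 p hp
      show 0 < 1 - p.2
      linarith
  have cp2 : ContinuousOn (fun p : ℝ × ℝ => ps (1 + p.2)) S :=
    continuousOn_ps.comp (continuousOn_const.add c2) fun p hp => by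
      have := p0 p hp
      show 0 < 1 + p.2
      linarith
  have cka : ContinuousOn (fun p : ℝ × ℝ => ka p.2) S := (cp2.add cp1).div_const 2
  have cW : ContinuousOn (fun p : ℝ × ℝ => WW p.2 p.1) S :=
    Real.continuous_exp.comp_continuousOn ((cls.add cy).div c2 fun p hp => (p0 p hp).ne')
  have clW : ContinuousOn (fun p : ℝ × ℝ => Real.log (WW p.2 p.1)) S :=
    cW.log fun p _ => (Real.exp_pos _).ne'
  constructor
  · unfold Tw
    exact ((cs.mul (((cW.sub continuousOn_const).mul clW).sub continuousOn_const)).sub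
      (cka.mul ((cs.mul cW).sub (cs.sub continuousOn_const)))).add cp1
  · unfold gg
    exact Real.continuous_exp.comp_continuousOn
      (((((clog.neg).add ((cs.sub continuousOn_const).mul cls)).sub cG).add
        ((cs.sub continuousOn_const).mul cy)).sub cW)

theorem gg_eq {s y : ℝ} (h0 : 0 < s) (h1 : s < 1) (hy : 0 < y) :
    gg s y = gd (1 / s) (1 / s * Real.exp ((1 / s - 1) * ls s) / Real.Gamma (1 - s))
      (Real.exp (ls s / s)) y := by
  have hΓ : 0 < Real.Gamma (1 - s) := Real.Gamma_pos_of_pos (by linarith)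
  have hW : WW s y = Real.exp (ls s / s) * y ^ (1 / s) := by
    unfold WW
    rw [Real.rpow_def_of_pos hy, ← Real.exp_add]
    congr 1
    field_simp
  unfold gg gd
  rw [Real.exp_sub, Real.exp_add, Real.exp_sub, Real.exp_add, Real.exp_neg, Real.exp_log h0,
    Real.exp_log hΓ, hW, neg_mul, Real.exp_neg, Real.rpow_def_of_pos hy (1 / s - 2),
    mul_comm (Real.log y)]
  field_simp

/-- substitution -/
theorem subst {s : ℝ} (h0 : 0 < s) (h1 : s < 1) (G : ℝ → ℝ) :
    (IntegrableOn (fun w => G w * wt s w) (Ioi 0) → IntegrableOn (fun y => G (WW s y) * gg s y) (Ioi 0)) ∧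
    ∫ y in Ioi (0 : ℝ), G (WW s y) * gg s y = (∫ w in Ioi (0 : ℝ), G w * wt s w) / Real.Gamma (1 - s) := by
  have hΓ : 0 < Real.Gamma (1 - s) := Real.Gamma_pos_of_pos (by linarith)
  set q := 1 / s with hq
  have hq0 : 0 < q := by positivity
  obtain ⟨a, ha⟩ : ∃ a, a = Real.exp (ls s / s) := ⟨_, rfl⟩
  have ha0 : 0 < a := by rw [ha]; exact Real.exp_pos _
  set Φ : ℝ → ℝ := fun w => G w * wt s w with hΦ
  have hW : ∀ y, 0 < y → WW s y = a * y ^ q := by
    intro y hy
    rw [ha]
    unfold WW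
    rw [Real.rpow_def_of_pos hy, ← Real.exp_add]
    congr 1
    rw [hq]
    field_simp
  have key : ∀ y ∈ Ioi (0 : ℝ), G (WW s y) * gg s y =
      a / Real.Gamma (1 - s) * ((q * y ^ (q - 1)) • (fun v => Φ (a * v)) (y ^ q)) := by
    intro y hy
    have hy0 : 0 < y := hy
    rw [gg_eq h0 h1 hy0, hW y hy0, ← ha]
    simp only [smul_eq_mul, hΦ, wt, gd]
    have hyq : 0 < y ^ q := Real.rpow_pos_of_pos hy0 q
    have e1 : (a * y ^ q) ^ (-s) = a ^ (-s) * y⁻¹ := by
      rw [Real.mul_rpow ha0.le hyq.le, ← Real.rpow_mul hy0.le]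
      have : q * -s = -1 := by rw [hq]; field_simp
      rw [this, Real.rpow_neg_one]
    have e2 : y ^ (q - 1) = y ^ (q - 2) * y := by
      rw [show q - 1 = (q - 2) + 1 by ring, Real.rpow_add hy0, Real.rpow_one]
    have e3 : Real.exp ((q - 1) * ls s) = a * a ^ (-s) := by
      rw [Real.rpow_def_of_pos ha0, ha, Real.log_exp, ← Real.exp_add]
      congr 1
      rw [hq]
      field_simp
      ring
    rw [e1, e2, e3, ← hq]
    rw [show -a * y ^ q = -(a * y ^ q) by ring]
    field_simp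
  have hint : ∫ y in Ioi (0 : ℝ), G (WW s y) * gg s y =
      a / Real.Gamma (1 - s) * (a⁻¹ * ∫ w in Ioi (0 : ℝ), Φ w) := by
    rw [setIntegral_congr_fun measurableSet_Ioi key, integral_const_mul,
      integral_comp_rpow_Ioi_of_pos (g := fun v => Φ (a * v)) hq0,
      integral_comp_mul_left_Ioi Φ 0 ha0, mul_zero, smul_eq_mul]
  refine ⟨fun hi => ?_, ?_⟩
  · have i1 : IntegrableOn (fun v => Φ (a * v)) (Ioi 0) := by
      rw [integrableOn_Ioi_comp_mul_left_iff Φ 0 ha0, mul_zero]
      exact hi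
    have i2 := (integrableOn_Ioi_comp_rpow_iff (fun v => Φ (a * v)) hq0.ne').2 i1
    rw [abs_of_pos hq0] at i2
    have i3 : IntegrableOn (fun y => a / Real.Gamma (1 - s) *
        ((q * y ^ (q - 1)) • (fun v => Φ (a * v)) (y ^ q))) (Ioi 0) :=
      i2.const_mul (a / Real.Gamma (1 - s))
    exact i3.congr_fun (fun y hy => (key y hy).symm) measurableSet_Ioi
  · rw [hint, hΦ]
    field_simp

theorem score_sq {s : ℝ} (h0 : 1 / 4 ≤ s) (h1 : s < 1 / 2) :
    IntegrableOn (fun y => Tw s (WW s y) ^ 2 * gg s y) (Ioi 0) ∧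
    ∫ y in Ioi (0 : ℝ), Tw s (WW s y) ^ 2 * gg s y ≤ 256 := by
  have hs0 : 0 < s := by linarith
  have hs1 : s < 1 := by linarith
  have hΓ : 0 < Real.Gamma (1 - s) := Real.Gamma_pos_of_pos (by linarith)
  obtain ⟨f1, f2⟩ := fisher h0 h1
  obtain ⟨g1, g2⟩ := subst hs0 hs1 (fun w => Tw s w ^ 2)
  refine ⟨g1 f1, ?_⟩
  rw [g2, div_le_iff₀ hΓ]
  exact f2

/-- the density of `nu s` -/
theorem nu_gg {s : ℝ} (h0 : 0 < s) (h1 : s < 1 / 2) (F : ℝ → ℝ) :
    ∫ y, F y ∂(nu s) = ∫ y in Ioi (0 : ℝ), gg s y * F y := by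
  have hs1 : s < 1 := by linarith
  have hΓ : 0 < Real.Gamma (1 - s) := Real.Gamma_pos_of_pos (by linarith)
  have hΓ' : 0 < Real.Gamma (1 + s) := Real.Gamma_pos_of_pos (by linarith)
  obtain ⟨c, a, hc, ha, hF⟩ := nu_rep h0 h1
  obtain ⟨L1, L2, L3, L4, -⟩ := aLAW h0 h1
  set q := 1 / s with hq
  have hq2 : 2 < q := by
    rw [hq, lt_div_iff₀ h0]
    linarith
  have hq0 : 0 < q := by linarith
  have m0 : ∫ y in Ioi (0 : ℝ), gd q c a y = 1 := by
    have h := hF (fun _ => 1)
    simp only [mul_one] at h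
    rw [← h]
    simp
  have m2 : ∫ y in Ioi (0 : ℝ), gd q c a y * y ^ 2 = 1 := by
    rw [← hF (fun y => y ^ 2)]
    have h := L4 1
    rw [mul_one] at h
    rw [h, mo_one h0 hs1]
  have i0 : ∫ y in Ioi (0 : ℝ), gd q c a y = c * (a ^ (-(1 - s)) * s * Real.Gamma (1 - s)) := by
    unfold gd
    rw [integral_const_mul, integral_rpow_mul_exp_neg_mul_rpow hq0 (by linarith) ha]
    have e1 : (q - 2 + 1) / q = 1 - s := by
      rw [hq]
      field_simp
      ring
    have e2 : -(q - 2 + 1) / q = -(1 - s) := by rw [neg_div, e1]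
    rw [e1, e2, hq]
    simp
  have i2 : ∫ y in Ioi (0 : ℝ), gd q c a y * y ^ 2 = c * (a ^ (-(1 + s)) * s * Real.Gamma (1 + s)) := by
    have : ∀ y ∈ Ioi (0 : ℝ), gd q c a y * y ^ 2 = c * (y ^ q * Real.exp (-a * y ^ q)) := by
      intro y hy
      have hy0 : 0 < y := hy
      unfold gd
      have e : y ^ q = y ^ (q - 2) * y ^ 2 := by
        nth_rewrite 1 [show q = (q - 2) + (2 : ℕ) by push_cast; ring]
        rw [Real.rpow_add hy0, Real.rpow_natCast]
      generalize Real.exp (-a * y ^ q) = E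
      rw [e]
      ring
    rw [setIntegral_congr_fun measurableSet_Ioi this, integral_const_mul,
      integral_rpow_mul_exp_neg_mul_rpow hq0 (by linarith) ha]
    have e1 : (q + 1) / q = 1 + s := by
      rw [hq]
      field_simp
    have e2 : -(q + 1) / q = -(1 + s) := by rw [neg_div, e1]
    rw [e1, e2, hq]
    simp
  rw [m0] at i0
  rw [m2] at i2
  -- take logarithms
  have l0 : 0 = Real.log c + (-(1 - s) * Real.log a + Real.log s + Real.log (Real.Gamma (1 - s))) := by
    have h := congrArg Real.log i0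
    rw [Real.log_one, Real.log_mul hc.ne' (by positivity), Real.log_mul (by positivity) hΓ.ne',
      Real.log_mul (by positivity) h0.ne', Real.log_rpow ha] at h
    exact h
  have l2 : 0 = Real.log c + (-(1 + s) * Real.log a + Real.log s + Real.log (Real.Gamma (1 + s))) := by
    have h := congrArg Real.log i2
    rw [Real.log_one, Real.log_mul hc.ne' (by positivity), Real.log_mul (by positivity) hΓ'.ne',
      Real.log_mul (by positivity) h0.ne', Real.log_rpow ha] at h
    exact h
  have la : Real.log a = ls s / s := by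
    rw [eq_div_iff h0.ne']
    unfold ls
    linarith
  have ea : a = Real.exp (ls s / s) := by rw [← la, Real.exp_log ha]
  have ec : c = q * Real.exp ((q - 1) * ls s) / Real.Gamma (1 - s) := by
    have lc : Real.log c = (q - 1) * ls s - Real.log s - Real.log (Real.Gamma (1 - s)) := by
      have e : (1 - s) * Real.log a = (q - 1) * ls s := by
        rw [la, hq]
        field_simp
      linarith
    rw [← Real.exp_log hc, lc, Real.exp_sub, Real.exp_sub, Real.exp_log hΓ, Real.exp_log h0, hq]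
    field_simp
  rw [hF F]
  refine setIntegral_congr_fun measurableSet_Ioi fun y hy => ?_
  show gd q c a y * F y = gg s y * F y
  rw [gg_eq h0 hs1 hy, ec, ea]

end Pool.Agent.Helper70.PT
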